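import Pool.Agent.Helper25.Folk.Graph
import Pool.Agent.Helper25.Folk.Blk0
import Pool.Agent.Helper25.Folk.Blk1
import Pool.Agent.Helper25.Folk.Blk3
import Pool.Agent.Helper25.Folk.Blk9
import Pool.Agent.Helper25.Folk.Blk11

/-!
There is a graph with 567 vertices and no `K_4` such that every colouring of its edges with two
colours has a monochromatic triangle. So `F_e(3,3;4) ≤ 567`.
-/

namespace Pool.Agent.Results.MP_43233f_co.Vertices567

theorem result : ∃ G : SimpleGraph (Fin 567), G.CliqueFree 4 ∧
    ∀ c : Fin 567 → Fin 567 → Bool, (∀ x y : Fin 567, c x y = c y x) →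
      ∃ a b d : Fin 567, G.Adj a b ∧ G.Adj b d ∧ G.Adj a d ∧ c a b = c b d ∧ c b d = c a d :=
  Pool.Agent.Helper25.Folk.main567 fun u y =>
    Pool.Agent.Helper25.Folk.all_blocks Pool.Agent.Helper25.Folk.block0
      Pool.Agent.Helper25.Folk.block1 Pool.Agent.Helper25.Folk.block3
      Pool.Agent.Helper25.Folk.block9 Pool.Agent.Helper25.Folk.block11 u y

end Pool.Agent.Results.MP_43233f_co.Vertices567
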